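import Pool.Graph.R_seed8.Results.MP_28bd58_gt.ErdosRatio

set_option autoImplicit false

namespace Pool.Agent.KS6_17.ER

open Pool.Agent.Helper87.Erdos Set Filter Topology

variable {M : Set (ℝ × ℝ)}

/-- A linear functional on `ℝ² × ℝ` that is positive on the points `(x, 1)`, `x ∈ M`. -/
def Pos (M : Set (ℝ × ℝ)) (k : ((ℝ × ℝ) × ℝ) →ₗ[ℝ] ℝ) : Prop := ∀ x ∈ M, 0 < k (x, 1)

lemma map_line (k : ((ℝ × ℝ) × ℝ) →ₗ[ℝ] ℝ) (x v : ℝ × ℝ) (s : ℝ) :
    k (x + s • v, 1) = k (x, 1) + s * k (v, 0) := by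
  have e : ((x + s • v, 1) : (ℝ × ℝ) × ℝ) = (x, 1) + s • (v, 0) := by
    ext <;> simp
  rw [e, map_add, map_smul, smul_eq_mul]

lemma map_comb (k : ((ℝ × ℝ) × ℝ) →ₗ[ℝ] ℝ) (x y : ℝ × ℝ) (u : ℝ) :
    k ((1 - u) • x + u • y, 1) = (1 - u) * k (x, 1) + u * k (y, 1) := by
  have e : (((1 - u) • x + u • y, 1) : (ℝ × ℝ) × ℝ) = (1 - u) • (x, 1) + u • (y, 1) := by
    ext <;> simp
  rw [e, map_add, map_smul, map_smul, smul_eq_mul, smul_eq_mul]

lemma map_comb3 (k : ((ℝ × ℝ) × ℝ) →ₗ[ℝ] ℝ) (x y z : ℝ × ℝ) {a b c : ℝ} (h : a + b + c = 1) :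
    k (a • x + b • y + c • z, 1) = a * k (x, 1) + b * k (y, 1) + c * k (z, 1) := by
  have e : ((a • x + b • y + c • z, 1) : (ℝ × ℝ) × ℝ) = a • (x, 1) + b • (y, 1) + c • (z, 1) := by
    ext
    · simp
    · simp
    · simp [h]
  rw [e, map_add, map_add, map_smul, map_smul, map_smul, smul_eq_mul, smul_eq_mul, smul_eq_mul]

/-- a functional positive on `M` bounds the gauge from below -/
lemma gg_ge (hM : IsOpen M) (hc : Convex ℝ M) {O : ℝ × ℝ} (hO : O ∈ M)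
    {k : ((ℝ × ℝ) × ℝ) →ₗ[ℝ] ℝ} (hk : Pos M k) (v : ℝ × ℝ) :
    - k (v, 0) / k (O, 1) ≤ gg M O v := by
  by_contra hlt
  push Not at hlt
  have hkO := hk O hO
  have h0 := gg_nonneg (M := M) (O := O) v
  obtain ⟨L, hL⟩ : ∃ L, L = - k (v, 0) / k (O, 1) := ⟨_, rfl⟩
  rw [← hL] at hlt
  have hL0 : 0 < L := lt_of_le_of_lt h0 hlt
  have hmem : O + L⁻¹ • v ∈ M := by
    rw [← gg_lt_one_iff hM hc hO, gg_smul (inv_nonneg.2 hL0.le), inv_mul_lt_iff₀ hL0]; linarith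
  have h1 := hk _ hmem
  rw [map_line] at h1
  have h2 : L * k (O, 1) = - k (v, 0) := by rw [hL]; exact div_mul_cancel₀ _ hkO.ne'
  have h3 : L⁻¹ * k (v, 0) = - k (O, 1) := by
    have : k (v, 0) = -(L * k (O, 1)) := by linarith
    rw [this]; field_simp
  linarith

/-- two functionals positive on `M` bound the Hilbert distance from below -/
lemma tanh_ge (hM : IsOpen M) (hc : Convex ℝ M) {O X : ℝ × ℝ} (hO : O ∈ M) (hX : X ∈ M)
    {k₁ k₂ : ((ℝ × ℝ) × ℝ) →ₗ[ℝ] ℝ} (h₁ : Pos M k₁) (h₂ : Pos M k₂) {Λ : ℝ} (hΛ : 1 ≤ Λ)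
    (h : Λ * (k₁ (O, 1) * k₂ (X, 1)) ≤ k₁ (X, 1) * k₂ (O, 1)) :
    (Λ - 1) / (Λ + 1) ≤ Real.tanh (hdist M O X) := by
  obtain ⟨v, rfl⟩ : ∃ v, X = O + v := ⟨X - O, by abel⟩
  have hlt := (gg_lt_one_iff hM hc hO v).2 hX
  have g0 := gg_nonneg (M := M) (O := O) v
  have g0' := gg_nonneg (M := M) (O := O) (-v)
  have p1 := h₁ O hO
  have p2 := h₂ O hO
  have q2 := h₂ _ hX
  have e1 : k₁ (O + v, 1) = k₁ (O, 1) + k₁ (v, 0) := by
    have := map_line k₁ O v 1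
    rwa [one_smul, one_mul] at this
  have e2 : k₂ (O + v, 1) = k₂ (O, 1) + k₂ (v, 0) := by
    have := map_line k₂ O v 1
    rwa [one_smul, one_mul] at this
  have b1 : k₁ (O + v, 1) / k₁ (O, 1) ≤ 1 + gg M O (-v) := by
    have := gg_ge hM hc hO h₁ (-v)
    have e3 : k₁ (-v, 0) = - k₁ (v, 0) := by
      have : ((-v, 0) : (ℝ × ℝ) × ℝ) = -(v, 0) := by ext <;> simp
      rw [this, map_neg]
    rw [e3, neg_neg] at this
    rw [e1, add_div, div_self p1.ne']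
    linarith
  have b2 : 1 - gg M O v ≤ k₂ (O + v, 1) / k₂ (O, 1) := by
    have := gg_ge hM hc hO h₂ v
    rw [e2, add_div, div_self p2.ne']
    rw [neg_div] at this
    linarith
  have hE : Λ ≤ (1 + gg M O (-v)) / (1 - gg M O v) := by
    rw [le_div_iff₀ (by linarith)]
    calc Λ * (1 - gg M O v) ≤ Λ * (k₂ (O + v, 1) / k₂ (O, 1)) := by gcongr
      _ ≤ k₁ (O + v, 1) / k₁ (O, 1) := by
          rw [← mul_div_assoc, div_le_div_iff₀ p2 p1]
          linarith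
      _ ≤ _ := b1
  rw [hdist_eq_log]
  have hE0 : 0 < (1 + gg M O (-v)) / (1 - gg M O v) := by linarith
  rw [tanh_half_log hE0]
  rw [div_le_div_iff₀ (by linarith) (by linarith)]
  nlinarith

lemma tanh_nonneg (hM : IsHilbertDomain M) {O X : ℝ × ℝ} (hO : O ∈ M) (hX : X ∈ M) :
    0 ≤ Real.tanh (hdist M O X) := by
  have hv : O + (X - O) ∈ M := by rwa [add_sub_cancel]
  have h := tanh_hdist hM.isOpen hM.convex hO hv
  rw [add_sub_cancel] at h
  rw [h]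
  apply div_nonneg (nn_nonneg _)
  have h1 : gg M O (X - O) < 1 := (gg_lt_one_iff hM.isOpen hM.convex hO _).2 hv
  linarith [gg_nonneg (M := M) (O := O) (-(X - O))]

lemma tanh_pos (hM : IsHilbertDomain M) {O X : ℝ × ℝ} (hO : O ∈ M) (hX : X ∈ M) (hne : X ≠ O) :
    0 < Real.tanh (hdist M O X) := by
  have hv : O + (X - O) ∈ M := by rwa [add_sub_cancel]
  have h := tanh_hdist hM.isOpen hM.convex hO hv
  rw [add_sub_cancel] at h
  rw [h]
  apply div_pos (nn_pos hM hO (sub_ne_zero.2 hne))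
  have h1 : gg M O (X - O) < 1 := (gg_lt_one_iff hM.isOpen hM.convex hO _).2 hv
  linarith [gg_nonneg (M := M) (O := O) (-(X - O))]

lemma comb3_mem (hc : Convex ℝ M) {A B C : ℝ × ℝ} (hA : A ∈ M) (hB : B ∈ M) (hC : C ∈ M)
    {α β γ : ℝ} (hα : 0 < α) (hβ : 0 < β) (hγ : 0 < γ) (hsum : α + β + γ = 1) :
    α • A + β • B + γ • C ∈ M := by
  have h1 : α • A + β • B + γ • C = (α + β) • ((α/(α+β)) • A + (β/(α+β)) • B) + γ • C := by
    rw [smul_add, smul_smul, smul_smul, mul_div_cancel₀ _ (by positivity),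
      mul_div_cancel₀ _ (by positivity)]
  rw [h1]
  apply hc _ hC (by positivity) hγ.le hsum
  apply hc hA hB (by positivity) (by positivity)
  field_simp

/-- every configuration has ratio at least `1` -/
lemma one_le_ratio (hM : IsHilbertDomain M) {A B C O P Q R : ℝ × ℝ}
    (h : IsConfig M A B C O P Q R) : 1 ≤ configRatio M A B C O P Q R := by
  obtain ⟨hA, hB, hC, hcol, ⟨α, β, γ, hα, hβ, hγ, hsum, hOe⟩, hP, hQ, hR⟩ := h
  have hO : O ∈ M := by
    rw [hOe]; exact comb3_mem hM.convex hA hB hC hα hβ hγ hsum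
  have lB : B ∈ affineSpan ℝ ({B, C} : Set (ℝ × ℝ)) := left_mem_affineSpan_pair ℝ _ _
  have lC : C ∈ affineSpan ℝ ({C, A} : Set (ℝ × ℝ)) := left_mem_affineSpan_pair ℝ _ _
  have lA : A ∈ affineSpan ℝ ({A, B} : Set (ℝ × ℝ)) := left_mem_affineSpan_pair ℝ _ _
  have t1 := tanh_mono (hP.2.2 B lB hB)
  have t2 := tanh_mono (hQ.2.2 C lC hC)
  have t3 := tanh_mono (hR.2.2 A lA hA)
  have hPO : P ≠ O := by
    intro hPO
    apply hcol
    apply collinear_insert_of_mem_affineSpan_pair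
    have hPl := hP.1
    rw [hPO, mem_affineSpan_pair_iff_exists_lineMap_eq] at hPl
    obtain ⟨u, hu⟩ := hPl
    rw [mem_affineSpan_pair_iff_exists_lineMap_eq]
    refine ⟨(u - γ) / α, ?_⟩
    rw [AffineMap.lineMap_apply, vsub_eq_sub, vadd_eq_add] at hu ⊢
    have h1 : α • ((((u - γ) / α) • (C - B)) + B) = α • A := by
      rw [smul_add, smul_smul, mul_div_cancel₀ _ hα.ne']
      have h2 : α • A = O - β • B - γ • C := by rw [hOe]; abel
      rw [h2, ← hu]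
      have h3 : α = 1 - β - γ := by linarith
      rw [h3]; module
    exact smul_right_injective _ hα.ne' h1
  have p1 := tanh_pos hM hO hP.2.1 hPO
  have p2 := tanh_nonneg hM hO hQ.2.1
  have p3 := tanh_nonneg hM hO hR.2.1
  unfold configRatio
  rw [one_le_div (by linarith)]
  linarith

lemma bddBelow_ratios (hM : IsHilbertDomain M) :
    BddBelow {ϱ : ℝ | ∃ A B C O P Q R : ℝ × ℝ, IsConfig M A B C O P Q R ∧
      ϱ = configRatio M A B C O P Q R} := by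
  refine ⟨1, ?_⟩
  rintro _ ⟨A, B, C, O, P, Q, R, h, rfl⟩
  exact one_le_ratio hM h

lemma one_le_erdosRatio (hM : IsHilbertDomain M) : 1 ≤ erdosRatio M := by
  apply le_csInf
  · obtain ⟨A, B, C, O, P, Q, R, h, -⟩ := exists_config_lt hM one_pos
    exact ⟨_, A, B, C, O, P, Q, R, h, rfl⟩
  · rintro _ ⟨A, B, C, O, P, Q, R, h, rfl⟩
    exact one_le_ratio hM h

/-- Three points with prescribed values of three functionals give a configuration of small ratio,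
if all points of the three side lines are far from the centre. -/
lemma ratio_le_core (hM : IsHilbertDomain M) {F G h : ((ℝ × ℝ) × ℝ) →ₗ[ℝ] ℝ}
    (hh : Pos M h) {Λ δ N : ℝ} (hΛ : 1 < Λ) (hδ1 : δ < 1) (hN2 : 2 < N + δ) (hNδ : 0 < N - δ)
    {A B C : ℝ × ℝ} (hA : A ∈ M) (hB : B ∈ M) (hC : C ∈ M)
    (hFA : F (A, 1) = δ * h (A, 1)) (hGA : G (A, 1) = δ * h (A, 1))
    (hFB : F (B, 1) = N * h (B, 1)) (hGB : G (B, 1) = δ * h (B, 1))
    (hFC : F (C, 1) = δ * h (C, 1)) (hGC : G (C, 1) = N * h (C, 1))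
    (hBC : ∀ O ∈ M, F (O, 1) = h (O, 1) → G (O, 1) = h (O, 1) → ∀ X ∈ M,
      F (X, 1) + G (X, 1) = (N + δ) * h (X, 1) → (Λ - 1) / (Λ + 1) ≤ Real.tanh (hdist M O X))
    (hCA : ∀ O ∈ M, F (O, 1) = h (O, 1) → G (O, 1) = h (O, 1) → ∀ X ∈ M,
      F (X, 1) = δ * h (X, 1) → (Λ - 1) / (Λ + 1) ≤ Real.tanh (hdist M O X))
    (hAB : ∀ O ∈ M, F (O, 1) = h (O, 1) → G (O, 1) = h (O, 1) → ∀ X ∈ M,
      G (X, 1) = δ * h (X, 1) → (Λ - 1) / (Λ + 1) ≤ Real.tanh (hdist M O X)) :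
    erdosRatio M ≤ (Λ + 1) / (Λ - 1) := by
  have pA := hh A hA
  have pB := hh B hB
  have pC := hh C hC
  obtain ⟨b, hb⟩ : ∃ b, b = (1 - δ) / (N - δ) := ⟨_, rfl⟩
  have hb0 : 0 < b := by rw [hb]; exact div_pos (by linarith) hNδ
  have hb1 : b * (N - δ) = 1 - δ := by rw [hb]; exact div_mul_cancel₀ _ hNδ.ne'
  obtain ⟨a, ha⟩ : ∃ a, a = 1 - 2 * b := ⟨_, rfl⟩
  have ha0 : 0 < a := by
    rw [ha, hb, sub_pos, ← mul_div_assoc, div_lt_one hNδ]; linarith
  obtain ⟨S, hS⟩ : ∃ S, S = a / h (A, 1) + b / h (B, 1) + b / h (C, 1) := ⟨_, rfl⟩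
  have hS0 : 0 < S := by rw [hS]; positivity
  obtain ⟨α, hα⟩ : ∃ α, α = a / h (A, 1) / S := ⟨_, rfl⟩
  obtain ⟨β, hβ⟩ : ∃ β, β = b / h (B, 1) / S := ⟨_, rfl⟩
  obtain ⟨γ, hγ⟩ : ∃ γ, γ = b / h (C, 1) / S := ⟨_, rfl⟩
  have hα0 : 0 < α := by rw [hα]; positivity
  have hβ0 : 0 < β := by rw [hβ]; positivity
  have hγ0 : 0 < γ := by rw [hγ]; positivity
  have hsum : α + β + γ = 1 := by
    rw [hα, hβ, hγ, ← add_div, ← add_div, ← hS, div_self hS0.ne']
  have eα : α * h (A, 1) = a / S := by rw [hα]; field_simp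
  have eβ : β * h (B, 1) = b / S := by rw [hβ]; field_simp
  have eγ : γ * h (C, 1) = b / S := by rw [hγ]; field_simp
  obtain ⟨O, hOe⟩ : ∃ O, O = α • A + β • B + γ • C := ⟨_, rfl⟩
  have hO : O ∈ M := by rw [hOe]; exact comb3_mem hM.convex hA hB hC hα0 hβ0 hγ0 hsum
  have hhO : h (O, 1) = 1 / S := by
    rw [hOe, map_comb3 h A B C hsum, eα, eβ, eγ, ← add_div, ← add_div]
    congr 1
    rw [ha]; ring
  have hFO : F (O, 1) = 1 / S := by
    rw [hOe, map_comb3 F A B C hsum, hFA, hFB, hFC]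
    have : α * (δ * h (A, 1)) + β * (N * h (B, 1)) + γ * (δ * h (C, 1))
        = δ * (α * h (A, 1)) + N * (β * h (B, 1)) + δ * (γ * h (C, 1)) := by ring
    rw [this, eα, eβ, eγ]
    have : δ * (a / S) + N * (b / S) + δ * (b / S) = (δ * (a + b) + N * b) / S := by ring
    rw [this]
    congr 1
    rw [ha]; linear_combination hb1
  have hGO : G (O, 1) = 1 / S := by
    rw [hOe, map_comb3 G A B C hsum, hGA, hGB, hGC]
    have : α * (δ * h (A, 1)) + β * (δ * h (B, 1)) + γ * (N * h (C, 1))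
        = δ * (α * h (A, 1)) + δ * (β * h (B, 1)) + N * (γ * h (C, 1)) := by ring
    rw [this, eα, eβ, eγ]
    have : δ * (a / S) + δ * (b / S) + N * (b / S) = (δ * (a + b) + N * b) / S := by ring
    rw [this]
    congr 1
    rw [ha]; linear_combination hb1
  have hFO' : F (O, 1) = h (O, 1) := by rw [hFO, hhO]
  have hGO' : G (O, 1) = h (O, 1) := by rw [hGO, hhO]
  -- non-collinearity
  have hcol : ¬ Collinear ℝ {A, B, C} := by
    intro hc
    rw [collinear_iff_of_mem (p₀ := A) (by simp)] at hc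
    obtain ⟨v, hv⟩ := hc
    obtain ⟨r1, h1⟩ := hv B (by simp)
    obtain ⟨r2, h2⟩ := hv C (by simp)
    rw [vadd_eq_add, add_comm] at h1 h2
    have a1 := map_line F A v r1
    have a2 := map_line G A v r1
    have a3 := map_line h A v r1
    have c1 := map_line F A v r2
    have c2 := map_line G A v r2
    have c3 := map_line h A v r2
    rw [← h1] at a1 a2 a3
    rw [← h2] at c1 c2 c3
    rw [hFA, hFB] at a1
    rw [hGA, hGB] at a2
    rw [hFA, hFC] at c1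
    rw [hGA, hGC] at c2
    have x1 : r1 * (F (v, 0) - δ * h (v, 0)) = (N - δ) * h (B, 1) := by
      linear_combination -a1 + δ * a3
    have x2 : r1 * (G (v, 0) - δ * h (v, 0)) = 0 := by
      linear_combination -a2 + δ * a3
    have x3 : r2 * (G (v, 0) - δ * h (v, 0)) = (N - δ) * h (C, 1) := by
      linear_combination -c2 + δ * c3
    have hr1 : r1 ≠ 0 := by
      rintro rfl
      rw [zero_mul] at x1
      have := mul_pos hNδ pB
      linarith
    rcases mul_eq_zero.1 x2 with h' | h'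
    · exact hr1 h'
    · rw [h', mul_zero] at x3
      have := mul_pos hNδ pC
      linarith
  have hne1 : B ≠ C := by
    rintro rfl
    apply hcol
    have : ({A, B, B} : Set (ℝ × ℝ)) = {A, B} := by simp
    rw [this]; exact collinear_pair ℝ A B
  have hne2 : C ≠ A := by
    rintro rfl
    apply hcol
    have : ({C, B, C} : Set (ℝ × ℝ)) = {C, B} := by
      ext x; simp only [mem_insert_iff, mem_singleton_iff]; tauto
    rw [this]; exact collinear_pair ℝ C B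
  have hne3 : A ≠ B := by
    rintro rfl
    apply hcol
    have : ({A, A, C} : Set (ℝ × ℝ)) = {A, C} := by simp
    rw [this]; exact collinear_pair ℝ A C
  obtain ⟨P, hP⟩ := exists_foot hM hO hB hne1
  obtain ⟨Q, hQ⟩ := exists_foot hM hO hC hne2
  obtain ⟨R, hR⟩ := exists_foot hM hO hA hne3
  have hline : ∀ (k₁ k₂ : ((ℝ × ℝ) × ℝ) →ₗ[ℝ] ℝ) (c : ℝ) (U V X : ℝ × ℝ),
      X ∈ affineSpan ℝ ({U, V} : Set (ℝ × ℝ)) → k₁ (U, 1) = c * k₂ (U, 1) →
      k₁ (V, 1) = c * k₂ (V, 1) → k₁ (X, 1) = c * k₂ (X, 1) := by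
    intro k₁ k₂ c U V X hX hU hV
    rw [mem_affineSpan_pair_iff_exists_lineMap_eq] at hX
    obtain ⟨u, rfl⟩ := hX
    have e : AffineMap.lineMap U V u = (1 - u) • U + u • V := by
      rw [AffineMap.lineMap_apply_module]
    rw [e, map_comb, map_comb, hU, hV]; ring
  have oP : (Λ - 1) / (Λ + 1) ≤ Real.tanh (hdist M O P) := by
    apply hBC O hO hFO' hGO' P hP.2.1
    have e := hline (F + G) h (N + δ) B C P hP.1
      (by rw [LinearMap.add_apply, hFB, hGB]; ring) (by rw [LinearMap.add_apply, hFC, hGC]; ring)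
    rw [LinearMap.add_apply] at e
    exact e
  have oQ : (Λ - 1) / (Λ + 1) ≤ Real.tanh (hdist M O Q) :=
    hCA O hO hFO' hGO' Q hQ.2.1 (hline F h δ C A Q hQ.1 hFC hFA)
  have oR : (Λ - 1) / (Λ + 1) ≤ Real.tanh (hdist M O R) :=
    hAB O hO hFO' hGO' R hR.2.1 (hline G h δ A B R hR.1 hGA hGB)
  have hconf : IsConfig M A B C O P Q R :=
    ⟨hA, hB, hC, hcol, ⟨α, β, γ, hα0, hβ0, hγ0, hsum, hOe⟩, hP, hQ, hR⟩
  refine (csInf_le (bddBelow_ratios hM) ⟨A, B, C, O, P, Q, R, hconf, rfl⟩).trans ?_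
  unfold configRatio
  have u1 := (Real.tanh_lt_one (hdist M O A)).le
  have u2 := (Real.tanh_lt_one (hdist M O B)).le
  have u3 := (Real.tanh_lt_one (hdist M O C)).le
  have hq : 0 < (Λ - 1) / (Λ + 1) := by
    apply div_pos <;> linarith
  rw [div_le_iff₀ (by linarith)]
  have hprod : (Λ + 1) / (Λ - 1) * ((Λ - 1) / (Λ + 1)) = 1 := by
    have : Λ - 1 ≠ 0 := by linarith
    have : Λ + 1 ≠ 0 := by linarith
    field_simp
  have hq' : 0 < (Λ + 1) / (Λ - 1) := by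
    apply div_pos <;> linarith
  nlinarith

/-- Three points with prescribed values of three positive functionals give a configuration of
small ratio. -/
lemma ratio_le_of_targets (hM : IsHilbertDomain M) {F G h : ((ℝ × ℝ) × ℝ) →ₗ[ℝ] ℝ}
    (hF : Pos M F) (hG : Pos M G) (hh : Pos M h) {Λ : ℝ} (hΛ : 1 < Λ)
    {A B C : ℝ × ℝ} (hA : A ∈ M) (hB : B ∈ M) (hC : C ∈ M)
    (hFA : F (A, 1) = Λ⁻¹ * h (A, 1)) (hGA : G (A, 1) = Λ⁻¹ * h (A, 1))
    (hFB : F (B, 1) = (2 * Λ) * h (B, 1)) (hGB : G (B, 1) = Λ⁻¹ * h (B, 1))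
    (hFC : F (C, 1) = Λ⁻¹ * h (C, 1)) (hGC : G (C, 1) = (2 * Λ) * h (C, 1)) :
    erdosRatio M ≤ (Λ + 1) / (Λ - 1) := by
  have hΛ0 : 0 < Λ := by linarith
  have hδ0 : 0 < Λ⁻¹ := inv_pos.2 hΛ0
  have hδΛ : Λ * Λ⁻¹ = 1 := mul_inv_cancel₀ hΛ0.ne'
  have hδ1 : Λ⁻¹ < 1 := inv_lt_one_of_one_lt₀ hΛ
  have hFG : Pos M (F + G) := by
    intro x hx
    rw [LinearMap.add_apply]; exact add_pos (hF x hx) (hG x hx)
  refine ratio_le_core hM hh hΛ hδ1 (by linarith) (by linarith) hA hB hC hFA hGA hFB hGB hFC hGC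
    ?_ ?_ ?_
  · intro O hO hFO hGO X hX e
    apply tanh_ge hM.isOpen hM.convex hO hX hFG hh hΛ.le
    rw [LinearMap.add_apply, LinearMap.add_apply, e, hFO, hGO]
    have hx := hh X hX
    have ho := hh O hO
    have : 0 < Λ⁻¹ * h (X, 1) * h (O, 1) := by positivity
    nlinarith
  · intro O hO hFO hGO X hX e
    apply tanh_ge hM.isOpen hM.convex hO hX hh hF hΛ.le
    rw [e, hFO]
    apply le_of_eq
    linear_combination (h (O, 1) * h (X, 1)) * hδΛ
  · intro O hO hFO hGO X hX e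
    apply tanh_ge hM.isOpen hM.convex hO hX hh hG hΛ.le
    rw [e, hGO]
    apply le_of_eq
    linear_combination (h (O, 1) * h (X, 1)) * hδΛ

end Pool.Agent.KS6_17.ER
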