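import Pool.Agent.KS6_17.ER.Basic

set_option autoImplicit false

namespace Pool.Agent.KS6_17.ER

open Pool.Agent.Helper87.Erdos Set Filter Topology

variable {M : Set (ℝ × ℝ)}

/-- a functional that is nonnegative on the open set `M` and positive somewhere is positive -/
lemma pos_of_nonneg (hM : IsOpen M) {k : ((ℝ × ℝ) × ℝ) →ₗ[ℝ] ℝ}
    (hk : ∀ x ∈ M, 0 ≤ k (x, 1)) {x₁ : ℝ × ℝ} (h₁ : 0 < k (x₁, 1)) : Pos M k := by
  intro x hx
  have hcont : Continuous (fun t : ℝ => x - t • (x₁ - x)) := by fun_prop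
  have h0 : (fun t : ℝ => x - t • (x₁ - x)) 0 ∈ M := by simpa using hx
  have hev : ∀ᶠ t in 𝓝 (0:ℝ), (fun t : ℝ => x - t • (x₁ - x)) t ∈ M :=
    hcont.continuousAt.eventually (hM.mem_nhds h0)
  obtain ⟨ε, hε, hb⟩ := Metric.eventually_nhds_iff.1 hev
  have hmem := hb (y := ε / 2) (by rw [Real.dist_eq, sub_zero, abs_of_pos (by linarith)]; linarith)
  have h2 := hk _ hmem
  have e : x - (ε / 2) • (x₁ - x) = (1 - (-(ε / 2))) • x + (-(ε / 2)) • x₁ := by module
  simp only at h2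
  rw [e, map_comb] at h2
  have : 0 < ε / 2 * k (x₁, 1) := by positivity
  nlinarith

/-- an increasing sequence of targets near a corner -/
theorem erdosRatio_le_one (hM : IsHilbertDomain M) {f g h : ((ℝ × ℝ) × ℝ) →ₗ[ℝ] ℝ}
    {z : (ℝ × ℝ) × ℝ} (hf : Pos M f) (hg : Pos M g) (hh : Pos M h)
    (hfz : f z = 0) (hgz : g z = 0) (hhz : h z = 1)
    (hne : ∃ x ∈ M, ∃ y ∈ M, f (x, 1) * g (y, 1) ≠ f (y, 1) * g (x, 1))
    (hz : ∀ x ∈ M, ∀ s : ℝ, 0 < s → ∃ y ∈ M, ∃ r : ℝ, 0 < r ∧ z + s • (x, 1) = r • (y, 1)) :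
    erdosRatio M ≤ 1 := by
  -- the slope function
  let σ : ℝ × ℝ → ℝ := fun x => g (x, 1) / (f (x, 1) + g (x, 1))
  have hfg : ∀ x ∈ M, 0 < f (x, 1) + g (x, 1) := fun x hx => add_pos (hf x hx) (hg x hx)
  have hσe : ∀ x ∈ M, σ x * (f (x, 1) + g (x, 1)) = g (x, 1) := fun x hx =>
    div_mul_cancel₀ _ (hfg x hx).ne'
  have hσ0 : ∀ x ∈ M, 0 ≤ σ x := fun x hx => div_nonneg (hg x hx).le (hfg x hx).le
  have hσ1 : ∀ x ∈ M, σ x ≤ 1 := fun x hx => by
    simp only [σ]; rw [div_le_one (hfg x hx)]; linarith [hf x hx]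
  obtain ⟨x₁, hx₁, x₂, hx₂, hx12⟩ := hne
  have hσne : σ x₁ ≠ σ x₂ := by
    intro h
    apply hx12
    have h1 := hσe x₁ hx₁
    have h2 := hσe x₂ hx₂
    rw [h] at h1
    have p1 := hfg x₁ hx₁
    have p2 := hfg x₂ hx₂
    have : g (x₁, 1) * (f (x₂, 1) + g (x₂, 1)) = g (x₂, 1) * (f (x₁, 1) + g (x₁, 1)) := by
      linear_combination (-(f (x₂, 1) + g (x₂, 1))) * h1 + (f (x₁, 1) + g (x₁, 1)) * h2
    linarith
  have hbb : BddBelow (σ '' M) := ⟨0, by rintro _ ⟨x, hx, rfl⟩; exact hσ0 x hx⟩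
  have hba : BddAbove (σ '' M) := ⟨1, by rintro _ ⟨x, hx, rfl⟩; exact hσ1 x hx⟩
  have hneI : (σ '' M).Nonempty := hM.nonempty.image _
  obtain ⟨α, hα⟩ : ∃ α, α = sInf (σ '' M) := ⟨_, rfl⟩
  obtain ⟨β, hβ⟩ : ∃ β, β = sSup (σ '' M) := ⟨_, rfl⟩
  have hα_le : ∀ x ∈ M, α ≤ σ x := fun x hx => by rw [hα]; exact csInf_le hbb ⟨x, hx, rfl⟩
  have hβ_le : ∀ x ∈ M, σ x ≤ β := fun x hx => by rw [hβ]; exact le_csSup hba ⟨x, hx, rfl⟩
  have hαβ : α < β := by
    rcases lt_or_gt_of_ne hσne with h | h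
    · linarith [hα_le x₁ hx₁, hβ_le x₂ hx₂]
    · linarith [hα_le x₂ hx₂, hβ_le x₁ hx₁]
  have hlow : ∀ s, α < s → ∃ x ∈ M, σ x < s := by
    intro s hs
    rw [hα] at hs
    obtain ⟨_, ⟨x, hx, rfl⟩, hlt⟩ := exists_lt_of_csInf_lt hneI hs
    exact ⟨x, hx, hlt⟩
  have hhigh : ∀ s, s < β → ∃ x ∈ M, s < σ x := by
    intro s hs
    rw [hβ] at hs
    obtain ⟨_, ⟨x, hx, rfl⟩, hlt⟩ := exists_lt_of_lt_csSup hneI hs
    exact ⟨x, hx, hlt⟩
  have hcontk : ∀ k : ((ℝ × ℝ) × ℝ) →ₗ[ℝ] ℝ, Continuous (fun x : ℝ × ℝ => k (x, 1)) := by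
    intro k
    exact (k.continuous_of_finiteDimensional).comp (by fun_prop)
  have hσc : ContinuousOn σ M := by
    apply ContinuousOn.div (hcontk g).continuousOn
    · exact ((hcontk f).add (hcontk g)).continuousOn
    · intro x hx; exact (hfg x hx).ne'
  have hivt : ∀ s, α < s → s < β → ∃ x ∈ M, σ x = s := by
    intro s h1 h2
    obtain ⟨x, hx, hxs⟩ := hlow s h1
    obtain ⟨y, hy, hys⟩ := hhigh s h2
    obtain ⟨w, hw, hws⟩ := hM.convex.isPreconnected.intermediate_value hx hy hσc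
      (show s ∈ Icc (σ x) (σ y) from ⟨hxs.le, hys.le⟩)
    exact ⟨w, hw, hws⟩
  -- the extreme functionals
  obtain ⟨F, hFd⟩ : ∃ F : ((ℝ × ℝ) × ℝ) →ₗ[ℝ] ℝ, F = g - α • (f + g) := ⟨_, rfl⟩
  obtain ⟨G, hGd⟩ : ∃ G : ((ℝ × ℝ) × ℝ) →ₗ[ℝ] ℝ, G = β • (f + g) - g := ⟨_, rfl⟩
  have hFv : ∀ v, F v = g v - α * (f v + g v) := by
    intro v; rw [hFd]; simp; ring
  have hGv : ∀ v, G v = β * (f v + g v) - g v := by
    intro v; rw [hGd]; simp; ring
  have hFσ : ∀ x ∈ M, F (x, 1) = (σ x - α) * (f (x, 1) + g (x, 1)) := by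
    intro x hx; rw [hFv, sub_mul, hσe x hx]
  have hGσ : ∀ x ∈ M, G (x, 1) = (β - σ x) * (f (x, 1) + g (x, 1)) := by
    intro x hx; rw [hGv, sub_mul, hσe x hx]
  have hFz : F z = 0 := by rw [hFv, hfz, hgz]; ring
  have hGz : G z = 0 := by rw [hGv, hfz, hgz]; ring
  have hFpos : Pos M F := by
    obtain ⟨y, hy, hys⟩ := hhigh α hαβ
    apply pos_of_nonneg hM.isOpen (x₁ := y)
    · intro x hx
      rw [hFσ x hx]
      exact mul_nonneg (by linarith [hα_le x hx]) (hfg x hx).le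
    · rw [hFσ y hy]; exact mul_pos (by linarith) (hfg y hy)
  have hGpos : Pos M G := by
    obtain ⟨y, hy, hys⟩ := hlow β hαβ
    apply pos_of_nonneg hM.isOpen (x₁ := y)
    · intro x hx
      rw [hGσ x hx]
      exact mul_nonneg (by linarith [hβ_le x hx]) (hfg x hx).le
    · rw [hGσ y hy]; exact mul_pos (by linarith) (hfg y hy)
  -- the targets
  have htarget : ∀ X Y : ℝ, 0 < X → 0 < Y → ∃ t₀ : ℝ, 0 < t₀ ∧ ∀ t : ℝ, 0 < t → t < t₀ →
      ∃ y ∈ M, F (y, 1) = t * X * h (y, 1) ∧ G (y, 1) = t * Y * h (y, 1) := by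
    intro X Y hX hY
    have hXY : 0 < X + Y := add_pos hX hY
    have hba : 0 < β - α := sub_pos.2 hαβ
    obtain ⟨s, hs⟩ : ∃ s, s = (α * Y + β * X) / (X + Y) := ⟨_, rfl⟩
    have s1 : s - α = (β - α) * X / (X + Y) := by rw [hs]; field_simp; ring
    have s2 : β - s = (β - α) * Y / (X + Y) := by rw [hs]; field_simp; ring
    have s1p : 0 < s - α := by rw [s1]; positivity
    have s2p : 0 < β - s := by rw [s2]; positivity
    obtain ⟨x, hx, hxs⟩ := hivt s (by linarith) (by linarith)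
    have hq := hfg x hx
    obtain ⟨c, hc⟩ : ∃ c, c = (X + Y) / ((β - α) * (f (x, 1) + g (x, 1))) := ⟨_, rfl⟩
    have hc0 : 0 < c := by rw [hc]; positivity
    have cF : c * F (x, 1) = X := by
      rw [hFσ x hx, hxs, s1, hc]; field_simp
    have cG : c * G (x, 1) = Y := by
      rw [hGσ x hx, hxs, s2, hc]; field_simp
    have hhx := hh x hx
    refine ⟨1 / (c * h (x, 1)), by positivity, ?_⟩
    intro t ht htlt
    have hlam : 0 < 1 - t * c * h (x, 1) := by
      rw [lt_div_iff₀ (by positivity)] at htlt; linarith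
    obtain ⟨l, hl⟩ : ∃ l, l = 1 - t * c * h (x, 1) := ⟨_, rfl⟩
    rw [← hl] at hlam
    obtain ⟨y, hy, r, hr, he⟩ := hz x hx (t * c / l) (by positivity)
    have k1 : ∀ k : ((ℝ × ℝ) × ℝ) →ₗ[ℝ] ℝ, k z + t * c / l * k (x, 1) = r * k (y, 1) := by
      intro k
      have := congrArg k he
      rwa [map_add, map_smul, map_smul, smul_eq_mul, smul_eq_mul] at this
    have kF := k1 F
    have kG := k1 G
    have kh := k1 h
    rw [hFz, zero_add] at kF
    rw [hGz, zero_add] at kG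
    rw [hhz] at kh
    have kh' : r * h (y, 1) * l = 1 := by
      rw [← kh]; field_simp; rw [hl]; ring
    refine ⟨y, hy, ?_, ?_⟩
    · have e1 : r * F (y, 1) = r * (t * X * h (y, 1)) := by
        rw [← kF]
        have : r * (t * X * h (y, 1)) = t * X * (r * h (y, 1)) := by ring
        rw [this, ← kh]
        have h2 : 1 + t * c / l * h (x, 1) = 1 / l := by field_simp; rw [hl]; ring
        rw [h2, ← cF]; field_simp
      exact mul_left_cancel₀ hr.ne' e1
    · have e1 : r * G (y, 1) = r * (t * Y * h (y, 1)) := by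
        rw [← kG]
        have : r * (t * Y * h (y, 1)) = t * Y * (r * h (y, 1)) := by ring
        rw [this, ← kh]
        have h2 : 1 + t * c / l * h (x, 1) = 1 / l := by field_simp; rw [hl]; ring
        rw [h2, ← cG]; field_simp
      exact mul_left_cancel₀ hr.ne' e1
  -- the bound for every `Λ`
  have hbound : ∀ Λ : ℝ, 1 < Λ → erdosRatio M ≤ (Λ + 1) / (Λ - 1) := by
    intro Λ hΛ
    have hΛ0 : 0 < Λ := by linarith
    have hi : 0 < Λ⁻¹ := inv_pos.2 hΛ0
    obtain ⟨t1, ht1, T1⟩ := htarget Λ⁻¹ Λ⁻¹ hi hi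
    obtain ⟨t2, ht2, T2⟩ := htarget (2 * Λ) Λ⁻¹ (by linarith) hi
    obtain ⟨t3, ht3, T3⟩ := htarget Λ⁻¹ (2 * Λ) hi (by linarith)
    obtain ⟨t, ht⟩ : ∃ t, t = min t1 (min t2 t3) / 2 := ⟨_, rfl⟩
    have hm : 0 < min t1 (min t2 t3) := lt_min ht1 (lt_min ht2 ht3)
    have ht0 : 0 < t := by rw [ht]; linarith
    have htm : t < min t1 (min t2 t3) := by rw [ht]; linarith
    obtain ⟨A, hA, hFA, hGA⟩ := T1 t ht0 (htm.trans_le (min_le_left _ _))
    obtain ⟨B, hB, hFB, hGB⟩ := T2 t ht0 (htm.trans_le ((min_le_right _ _).trans (min_le_left _ _)))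
    obtain ⟨C, hC, hFC, hGC⟩ := T3 t ht0 (htm.trans_le ((min_le_right _ _).trans (min_le_right _ _)))
    have hs : ∀ (k : ((ℝ × ℝ) × ℝ) →ₗ[ℝ] ℝ) (y : ℝ × ℝ) (c : ℝ), k (y, 1) = t * c * h (y, 1) →
        (t⁻¹ • k) (y, 1) = c * h (y, 1) := by
      intro k y c hk
      rw [LinearMap.smul_apply, smul_eq_mul, hk]; field_simp
    have hp : ∀ k : ((ℝ × ℝ) × ℝ) →ₗ[ℝ] ℝ, Pos M k → Pos M (t⁻¹ • k) := by
      intro k hk x hx
      rw [LinearMap.smul_apply, smul_eq_mul]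
      exact mul_pos (inv_pos.2 ht0) (hk x hx)
    exact ratio_le_of_targets hM (hp F hFpos) (hp G hGpos) hh hΛ hA hB hC
      (hs F A _ hFA) (hs G A _ hGA) (hs F B _ hFB) (hs G B _ hGB) (hs F C _ hFC) (hs G C _ hGC)
  apply le_of_forall_pos_le_add
  intro ε hε
  have := hbound (1 + 2 / ε) (by linarith [div_pos two_pos hε])
  have e : (1 + 2 / ε + 1) / (1 + 2 / ε - 1) = 1 + ε := by field_simp; ring
  rwa [e] at this

/-- functionals constant on an open set have no linear part -/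
lemma lin_zero (hM : IsOpen M) {O : ℝ × ℝ} (hO : O ∈ M) {k : ((ℝ × ℝ) × ℝ) →ₗ[ℝ] ℝ}
    (hk : ∀ x ∈ M, k (x, 1) = k (O, 1)) (w : ℝ × ℝ) : k (w, 0) = 0 := by
  have hcont : Continuous (fun t : ℝ => O + t • w) := by fun_prop
  have h0 : (fun t : ℝ => O + t • w) 0 ∈ M := by simpa using hO
  have hev : ∀ᶠ t in 𝓝 (0:ℝ), (fun t : ℝ => O + t • w) t ∈ M :=
    hcont.continuousAt.eventually (hM.mem_nhds h0)
  obtain ⟨ε, hε, hb⟩ := Metric.eventually_nhds_iff.1 hev
  have hmem := hb (y := ε / 2) (by rw [Real.dist_eq, sub_zero, abs_of_pos (by linarith)]; linarith)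
  have h2 := hk _ hmem
  simp only at h2
  rw [map_line] at h2
  have h3 : ε / 2 * k (w, 0) = 0 := by linarith
  rcases mul_eq_zero.1 h3 with h | h
  · linarith
  · exact h

/-- the lift of an affine functional -/
noncomputable def lift (f : (ℝ × ℝ) →ₗ[ℝ] ℝ) (c : ℝ) : ((ℝ × ℝ) × ℝ) →ₗ[ℝ] ℝ :=
  f.comp (LinearMap.fst ℝ (ℝ × ℝ) ℝ) - c • LinearMap.snd ℝ (ℝ × ℝ) ℝ

lemma lift_apply (f : (ℝ × ℝ) →ₗ[ℝ] ℝ) (c : ℝ) (x : ℝ × ℝ) (s : ℝ) :
    lift f c (x, s) = f x - c * s := by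
  simp [lift]

/-- a nonzero functional bounded below on an open set is strictly above its bound -/
lemma lift_pos (hM : IsOpen M) (hne : M.Nonempty) {f : (ℝ × ℝ) →ₗ[ℝ] ℝ} (hf : f ≠ 0) {c : ℝ}
    (hc : ∀ x ∈ M, c ≤ f x) : Pos M (lift f c) := by
  obtain ⟨O, hO⟩ := hne
  by_cases hex : ∃ x₁ ∈ M, 0 < lift f c (x₁, 1)
  · obtain ⟨x₁, -, h1⟩ := hex
    apply pos_of_nonneg hM _ h1
    intro x hx
    rw [lift_apply]; linarith [hc x hx]
  · exfalso
    push Not at hex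
    have hz : ∀ x ∈ M, lift f c (x, 1) = 0 := by
      intro x hx
      apply le_antisymm (hex x hx)
      rw [lift_apply]; linarith [hc x hx]
    apply hf
    ext
    · have := lin_zero hM hO (k := lift f c) (fun x hx => by rw [hz x hx, hz O hO]) (1, 0)
      rw [lift_apply] at this
      simpa using this
    · have := lin_zero hM hO (k := lift f c) (fun x hx => by rw [hz x hx, hz O hO]) (0, 1)
      rw [lift_apply] at this
      simpa using this

lemma snd_pos : Pos M (LinearMap.snd ℝ (ℝ × ℝ) ℝ) := by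
  intro x _
  simp

/-- a finite corner -/
theorem erdosRatio_corner (hM : IsHilbertDomain M) {p : ℝ × ℝ} (hp : p ∈ frontier M)
    {f g : (ℝ × ℝ) →ₗ[ℝ] ℝ} (hind : LinearIndependent ℝ ![f, g])
    (hsup : ∀ x ∈ M, f p ≤ f x ∧ g p ≤ g x) : erdosRatio M ≤ 1 := by
  rw [LinearIndependent.pair_iff] at hind
  have hf0 : f ≠ 0 := by
    rintro rfl
    have := (hind 1 0 (by simp)).1
    exact one_ne_zero this
  have hg0 : g ≠ 0 := by
    rintro rfl
    have := (hind 0 1 (by simp)).2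
    exact one_ne_zero this
  have hfp := lift_pos hM.isOpen hM.nonempty hf0 (fun x hx => (hsup x hx).1)
  have hgp := lift_pos hM.isOpen hM.nonempty hg0 (fun x hx => (hsup x hx).2)
  refine erdosRatio_le_one hM (z := (p, 1)) hfp hgp snd_pos (by rw [lift_apply]; ring)
    (by rw [lift_apply]; ring) (by simp) ?_ ?_
  · obtain ⟨O, hO⟩ := hM.nonempty
    by_contra hcon
    push Not at hcon
    obtain ⟨k, hk⟩ : ∃ k : ((ℝ × ℝ) × ℝ) →ₗ[ℝ] ℝ,
        k = lift f (f p) (O, 1) • lift g (g p) - lift g (g p) (O, 1) • lift f (f p) := ⟨_, rfl⟩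
    have hk0 : ∀ x ∈ M, k (x, 1) = k (O, 1) := by
      intro x hx
      have := hcon O hO x hx
      rw [hk]
      simp only [LinearMap.sub_apply, LinearMap.smul_apply, smul_eq_mul]
      linarith
    have hlin := lin_zero hM.isOpen hO hk0
    have h1 : (lift f (f p) (O, 1)) • g + (-(lift g (g p) (O, 1))) • f = 0 := by
      apply LinearMap.ext
      intro w
      have := hlin w
      rw [hk] at this
      simp only [LinearMap.sub_apply, LinearMap.smul_apply, smul_eq_mul, lift_apply] at this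
      simp only [LinearMap.add_apply, LinearMap.smul_apply, smul_eq_mul, lift_apply,
        LinearMap.zero_apply]
      linarith
    rw [add_comm] at h1
    have h2 := (hind _ _ h1).2
    exact (hfp O hO).ne' h2
  · intro x hx s hs
    refine ⟨(1 / (1 + s)) • p + (s / (1 + s)) • x, ?_, 1 + s, by linarith, ?_⟩
    · have h1 := hM.convex.combo_closure_interior_mem_interior (frontier_subset_closure hp)
        (by rw [hM.isOpen.interior_eq]; exact hx) (a := 1 / (1 + s)) (b := s / (1 + s))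
        (by positivity) (by positivity) (by field_simp)
      rwa [hM.isOpen.interior_eq] at h1
    · have hs1 : (1 + s) ≠ 0 := by linarith
      ext
      · simp; field_simp
      · simp; field_simp
      · simp

/-- `v` is a recession direction of `M`. -/
def IsRecession (M : Set (ℝ × ℝ)) (v : ℝ × ℝ) : Prop := ∀ x ∈ M, ∀ s : ℝ, 0 ≤ s → x + s • v ∈ M

/-- a Hilbert domain contains no line -/
lemma no_line (hM : IsHilbertDomain M) {v : ℝ × ℝ} (hv : v ≠ 0) (h1 : IsRecession M v)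
    (h2 : IsRecession M (-v)) : False := by
  obtain ⟨O, hO⟩ := hM.nonempty
  have key : ∀ w : ℝ × ℝ, IsRecession M w → gg M O w = 0 := by
    intro w hw
    by_contra hne
    have hpos : 0 < gg M O w := lt_of_le_of_ne (gg_nonneg _) (Ne.symm hne)
    have := (gg_lt_one_iff hM.isOpen hM.convex hO ((gg M O w)⁻¹ • w)).2
      (hw O hO _ (inv_nonneg.2 hpos.le))
    rw [gg_smul (inv_nonneg.2 hpos.le), inv_mul_cancel₀ hpos.ne'] at this
    exact lt_irrefl _ this
  have := nn_pos hM hO hv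
  unfold nn at this
  rw [key v h1, key (-v) h2] at this
  linarith

/-- a direction that is not a recession direction is separated -/
lemma sep (hM : IsOpen M) (hc : Convex ℝ M) {u : ℝ × ℝ} (hu : ¬ IsRecession M u) :
    ∃ (k : (ℝ × ℝ) →ₗ[ℝ] ℝ) (c : ℝ), (∀ x ∈ M, c ≤ k x) ∧ k u < 0 := by
  unfold IsRecession at hu
  push Not at hu
  obtain ⟨x, hx, s, hs, hn⟩ := hu
  obtain ⟨f, hf⟩ := geometric_hahn_banach_point_open hc hM hn
  refine ⟨f.toLinearMap, f (x + s • u), fun y hy => (hf y hy).le, ?_⟩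
  have h1 := hf x hx
  rw [map_add, map_smul, smul_eq_mul] at h1
  by_contra hneg
  push Not at hneg
  have : 0 ≤ s * f u := mul_nonneg hs hneg
  linarith

/-- a corner at infinity -/
theorem erdosRatio_corner_inf (hM : IsHilbertDomain M) {v : ℝ × ℝ} (hv : v ≠ 0)
    (hrec : IsRecession M v) {f : (ℝ × ℝ) →ₗ[ℝ] ℝ} (hf0 : f ≠ 0) (hfv : f v = 0) {c : ℝ}
    (hc : ∀ x ∈ M, c ≤ f x) : erdosRatio M ≤ 1 := by
  obtain ⟨k, b, hk, hkv⟩ := sep hM.isOpen hM.convex (fun h => no_line hM hv hrec h)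
  rw [map_neg] at hkv
  have hkv' : 0 < k v := by linarith
  have hk0 : k ≠ 0 := by
    rintro rfl
    simp at hkv'
  have hfp := lift_pos hM.isOpen hM.nonempty hf0 hc
  have hkp := lift_pos hM.isOpen hM.nonempty hk0 hk
  have hkp' : Pos M ((k v)⁻¹ • lift k b) := by
    intro x hx
    rw [LinearMap.smul_apply, smul_eq_mul]
    exact mul_pos (inv_pos.2 hkv') (hkp x hx)
  refine erdosRatio_le_one hM (z := (v, 0)) hfp snd_pos hkp' (by rw [lift_apply, hfv]; ring)
    (by simp) ?_ ?_ ?_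
  · rw [LinearMap.smul_apply, smul_eq_mul, lift_apply]
    field_simp; ring
  · obtain ⟨O, hO⟩ := hM.nonempty
    by_contra hcon
    push Not at hcon
    have hk0 : ∀ x ∈ M, lift f c (x, 1) = lift f c (O, 1) := by
      intro x hx
      have := hcon x hx O hO
      simpa using this
    have hlin := lin_zero hM.isOpen hO hk0
    apply hf0
    apply LinearMap.ext
    intro w
    have := hlin w
    rw [lift_apply] at this
    simpa using this
  · intro x hx s hs
    refine ⟨x + s⁻¹ • v, hrec x hx _ (inv_nonneg.2 hs.le), s, hs, ?_⟩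
    ext
    · simp; field_simp; ring
    · simp; field_simp; ring
    · simp

end Pool.Agent.KS6_17.ER
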