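import Pool.Agent.KS6_17.ER.Corner

set_option autoImplicit false

namespace Pool.Agent.KS6_17.ER

open Pool.Agent.Helper87.Erdos Set Filter Topology

/-- the defining function of the lens -/
def lensF (p : ℝ × ℝ) : ℝ := p.1 ^ 2 + |p.1| + p.2 ^ 2

/-- The lens, the intersection of the two discs of radius `√5/2` about `(1/2, 0)` and
`(-1/2, 0)`. -/
def lens : Set (ℝ × ℝ) := {p | (p.1 + 1 / 2) ^ 2 + p.2 ^ 2 < 5 / 4 ∧ (p.1 - 1 / 2) ^ 2 + p.2 ^ 2 < 5 / 4}

lemma lens_eq : lens = {p | lensF p < 1} := by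
  ext p
  change ((p.1 + 1 / 2) ^ 2 + p.2 ^ 2 < 5 / 4 ∧ (p.1 - 1 / 2) ^ 2 + p.2 ^ 2 < 5 / 4) ↔
    p.1 ^ 2 + |p.1| + p.2 ^ 2 < 1
  constructor
  · rintro ⟨h1, h2⟩
    rcases abs_cases p.1 with h | h <;> nlinarith
  · intro h
    have h1 := le_abs_self p.1
    have h2 := neg_le_abs p.1
    constructor <;> nlinarith

lemma lensF_continuous : Continuous lensF := by
  unfold lensF; fun_prop

lemma lensF_strict {x y : ℝ × ℝ} (hxy : x ≠ y) {a b : ℝ} (ha : 0 < a) (hb : 0 < b)
    (hab : a + b = 1) : lensF (a • x + b • y) < a * lensF x + b * lensF y := by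
  have hb' : b = 1 - a := by linarith
  have h1 : |a * x.1 + b * y.1| ≤ a * |x.1| + b * |y.1| := by
    calc |a * x.1 + b * y.1| ≤ |a * x.1| + |b * y.1| := abs_add_le _ _
      _ = _ := by rw [abs_mul, abs_mul, abs_of_pos ha, abs_of_pos hb]
  have h2 : 0 < (x.1 - y.1) ^ 2 + (x.2 - y.2) ^ 2 := by
    by_contra hle
    push Not at hle
    have e1 : x.1 - y.1 = 0 := by nlinarith [sq_nonneg (x.1 - y.1), sq_nonneg (x.2 - y.2)]
    have e2 : x.2 - y.2 = 0 := by nlinarith [sq_nonneg (x.1 - y.1), sq_nonneg (x.2 - y.2)]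
    exact hxy (Prod.ext (by linarith) (by linarith))
  have h3 : 0 < a * b * ((x.1 - y.1) ^ 2 + (x.2 - y.2) ^ 2) := by positivity
  unfold lensF
  simp only [Prod.fst_add, Prod.smul_fst, Prod.snd_add, Prod.smul_snd, smul_eq_mul]
  have e : a * (x.1 ^ 2 + |x.1| + x.2 ^ 2) + b * (y.1 ^ 2 + |y.1| + y.2 ^ 2)
      - ((a * x.1 + b * y.1) ^ 2 + (a * x.2 + b * y.2) ^ 2)
      = a * |x.1| + b * |y.1| + a * b * ((x.1 - y.1) ^ 2 + (x.2 - y.2) ^ 2) := by
    rw [hb']; ring
  linarith

lemma isHilbertDomain_lens : IsHilbertDomain lens := by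
  have hopen : IsOpen lens := by
    rw [lens_eq]; exact isOpen_lt lensF_continuous continuous_const
  have hmem : ∀ x ∈ closure lens, lensF x ≤ 1 := by
    intro x hx
    have : closure lens ⊆ {p | lensF p ≤ 1} := by
      apply closure_minimal
      · rw [lens_eq]
        intro p hp
        have h : lensF p < 1 := hp
        exact h.le
      · exact isClosed_le lensF_continuous continuous_const
    exact this hx
  refine ⟨hopen, ?_, ⟨(0, 0), ?_⟩, ?_, ?_⟩
  · intro x hx y hy a b ha hb hab
    rcases eq_or_ne x y with rfl | hxy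
    · rw [← add_smul, hab, one_smul]; exact hx
    rcases ha.eq_or_lt with h | ha
    · rw [← h, zero_smul, zero_add]
      have : b = 1 := by linarith
      rw [this, one_smul]; exact hy
    rcases hb.eq_or_lt with h | hb
    · rw [← h, zero_smul, add_zero]
      have : a = 1 := by linarith
      rw [this, one_smul]; exact hx
    have h := lensF_strict hxy ha hb hab
    rw [lens_eq] at hx hy ⊢
    have hx' : lensF x < 1 := hx
    have hy' : lensF y < 1 := hy
    change lensF (a • x + b • y) < 1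
    nlinarith
  · rw [lens_eq]; simp [lensF]
  · intro h
    have : ((2, 0) : ℝ × ℝ) ∈ lens := by rw [h]; trivial
    rw [lens_eq] at this
    have h2 : lensF (2, 0) < 1 := this
    simp only [lensF] at h2
    rw [abs_of_pos (by norm_num : (0:ℝ) < 2)] at h2
    norm_num at h2
  · intro x hx y hy hxy a b ha hb hab
    have h := lensF_strict hxy ha hb hab
    have h1 := hmem x hx
    have h2 := hmem y hy
    have h3 : a • x + b • y ∈ lens := by
      rw [lens_eq]
      change lensF (a • x + b • y) < 1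
      nlinarith
    have : lens ⊆ interior (closure lens) := hopen.subset_interior_iff.2 subset_closure
    exact this h3

lemma lens_bounded : Bornology.IsBounded lens := by
  apply (Metric.isBounded_closedBall (x := (0 : ℝ × ℝ)) (r := 1)).subset
  intro p hp
  rw [lens_eq] at hp
  have h : p.1 ^ 2 + |p.1| + p.2 ^ 2 < 1 := hp
  rw [mem_closedBall_zero_iff, Prod.norm_def]
  have h1 := abs_nonneg p.1
  have h2 := sq_nonneg p.1
  have h3 := sq_nonneg p.2
  apply max_le
  · rw [Real.norm_eq_abs]; linarith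
  · rw [Real.norm_eq_abs]
    have : p.2 ^ 2 ≤ 1 := by linarith
    exact (sq_le_one_iff_abs_le_one _).1 this

lemma lens_corner : ((0, 1) : ℝ × ℝ) ∈ frontier lens := by
  rw [isHilbertDomain_lens.isOpen.frontier_eq]
  constructor
  · rw [Metric.mem_closure_iff]
    intro ε hε
    obtain ⟨δ, hδ⟩ : ∃ δ, δ = min (ε / 2) 1 := ⟨_, rfl⟩
    have h0 : 0 < δ := by rw [hδ]; exact lt_min (by linarith) one_pos
    have h1 : δ ≤ 1 := by rw [hδ]; exact min_le_right _ _
    have h2 : δ ≤ ε / 2 := by rw [hδ]; exact min_le_left _ _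
    refine ⟨(0, 1 - δ), ?_, ?_⟩
    · rw [lens_eq]
      change lensF (0, 1 - δ) < 1
      simp only [lensF, abs_zero]
      nlinarith
    · rw [Prod.dist_eq, dist_self, Real.dist_eq]
      have : (1:ℝ) - (1 - δ) = δ := by ring
      simp only [this, abs_of_pos h0]
      exact max_lt hε (by linarith)
  · rw [lens_eq]
    intro h
    have : lensF (0, 1) < 1 := h
    simp [lensF] at this

theorem erdosRatio_lens : erdosRatio lens ≤ 1 := by
  refine erdosRatio_corner isHilbertDomain_lens lens_corner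
    (f := -(LinearMap.snd ℝ ℝ ℝ + (1 / 2 : ℝ) • LinearMap.fst ℝ ℝ ℝ))
    (g := -(LinearMap.snd ℝ ℝ ℝ - (1 / 2 : ℝ) • LinearMap.fst ℝ ℝ ℝ)) ?_ ?_
  · rw [LinearIndependent.pair_iff]
    intro s t h
    have h1 := LinearMap.congr_fun h (1, 0)
    have h2 := LinearMap.congr_fun h (0, 1)
    simp at h1 h2
    constructor <;> linarith
  · intro x hx
    rw [lens_eq] at hx
    have h : x.1 ^ 2 + |x.1| + x.2 ^ 2 < 1 := hx
    simp only [LinearMap.neg_apply, LinearMap.add_apply, LinearMap.sub_apply, LinearMap.smul_apply,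
      LinearMap.snd_apply, LinearMap.fst_apply, smul_eq_mul]
    have h1 := le_abs_self x.1
    have h2 := neg_le_abs x.1
    have h3 := abs_nonneg x.1
    have h5 := sq_nonneg x.2
    have h6 := sq_nonneg x.1
    have h4 : |x.1| < 1 := by linarith
    have key : x.2 ≤ 1 - |x.1| / 2 := by
      by_contra hlt
      push Not at hlt
      have h7 := sq_abs x.1
      nlinarith
    constructor <;> linarith

end Pool.Agent.KS6_17.ER
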