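import Pool.Agent.KS6_17.ER.Corner

set_option autoImplicit false

namespace Pool.Agent.KS6_17.ER

open Pool.Agent.Helper87.Erdos Set Filter Topology

variable {M : Set (ℝ × ℝ)}

lemma lin2 (k : (ℝ × ℝ) →ₗ[ℝ] ℝ) (v : ℝ × ℝ) : k v = v.1 * k (1, 0) + v.2 * k (0, 1) := by
  have e : v = v.1 • ((1, 0) : ℝ × ℝ) + v.2 • ((0, 1) : ℝ × ℝ) := by ext <;> simp
  nth_rewrite 1 [e]
  rw [map_add, map_smul, map_smul, smul_eq_mul, smul_eq_mul]

section two

variable {f g : (ℝ × ℝ) →ₗ[ℝ] ℝ}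

lemma solve2 (hD : f (1, 0) * g (0, 1) - f (0, 1) * g (1, 0) ≠ 0) (p q : ℝ) :
    ∃ u : ℝ × ℝ, f u = p ∧ g u = q := by
  obtain ⟨D, hDe⟩ : ∃ D, D = f (1, 0) * g (0, 1) - f (0, 1) * g (1, 0) := ⟨_, rfl⟩
  rw [← hDe] at hD
  refine ⟨((g (0, 1) * p - f (0, 1) * q) / D, (f (1, 0) * q - g (1, 0) * p) / D), ?_, ?_⟩
  · rw [lin2 f]
    simp only
    field_simp
    rw [hDe]; ring
  · rw [lin2 g]
    simp only
    field_simp
    rw [hDe]; ring

lemma expand2 (hD : f (1, 0) * g (0, 1) - f (0, 1) * g (1, 0) ≠ 0) (k : (ℝ × ℝ) →ₗ[ℝ] ℝ) :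
    ∃ a b : ℝ, ∀ v, k v = a * f v + b * g v := by
  obtain ⟨D, hDe⟩ : ∃ D, D = f (1, 0) * g (0, 1) - f (0, 1) * g (1, 0) := ⟨_, rfl⟩
  rw [← hDe] at hD
  refine ⟨(k (1, 0) * g (0, 1) - k (0, 1) * g (1, 0)) / D,
    (f (1, 0) * k (0, 1) - f (0, 1) * k (1, 0)) / D, ?_⟩
  intro v
  rw [lin2 f v, lin2 g v, lin2 k v]
  field_simp
  rw [hDe]; ring

lemma zero2 (hD : f (1, 0) * g (0, 1) - f (0, 1) * g (1, 0) ≠ 0) {v : ℝ × ℝ} (h1 : f v = 0)
    (h2 : g v = 0) : v = 0 := by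
  rw [lin2 f] at h1
  rw [lin2 g] at h2
  have e1 : (f (1, 0) * g (0, 1) - f (0, 1) * g (1, 0)) * v.1 = 0 := by
    linear_combination g (0, 1) * h1 - f (0, 1) * h2
  have e2 : (f (1, 0) * g (0, 1) - f (0, 1) * g (1, 0)) * v.2 = 0 := by
    linear_combination -g (1, 0) * h1 + f (1, 0) * h2
  ext
  · exact (mul_eq_zero.1 e1).resolve_left hD
  · exact (mul_eq_zero.1 e2).resolve_left hD

end two

/-- a functional bounded below on `M` is nonnegative on recession directions -/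
lemma nonneg_of_rec (hne : M.Nonempty) {k : (ℝ × ℝ) →ₗ[ℝ] ℝ} {c : ℝ} (hk : ∀ x ∈ M, c ≤ k x)
    {v : ℝ × ℝ} (hv : IsRecession M v) : 0 ≤ k v := by
  obtain ⟨O, hO⟩ := hne
  by_contra hneg
  push Not at hneg
  obtain ⟨s, hs⟩ : ∃ s, s = (k O - c + 1) / (-(k v)) := ⟨_, rfl⟩
  have hs0 : 0 ≤ s := by
    rw [hs]; apply div_nonneg
    · linarith [hk O hO]
    · linarith
  have h1 := hk _ (hv O hO s hs0)
  rw [map_add, map_smul, smul_eq_mul] at h1
  have h2 : s * k v = -(k O - c + 1) := by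
    rw [hs, div_neg, neg_mul, div_mul_cancel₀ _ hneg.ne]
  linarith

/-- two independent functionals bounded below -/
lemma exists_pair (hM : IsHilbertDomain M) {v : ℝ × ℝ} (hv : v ≠ 0) (hrec : IsRecession M v) :
    ∃ (f g : (ℝ × ℝ) →ₗ[ℝ] ℝ) (c d : ℝ), (∀ x ∈ M, c ≤ f x) ∧ (∀ x ∈ M, d ≤ g x) ∧
      f (1, 0) * g (0, 1) - f (0, 1) * g (1, 0) ≠ 0 := by
  obtain ⟨f, c, hf, hfv⟩ := sep hM.isOpen hM.convex (fun h => no_line hM hv hrec h)
  rw [map_neg] at hfv
  -- a vector in the kernel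
  obtain ⟨u, hu⟩ : ∃ u : ℝ × ℝ, u = (-f (0, 1), f (1, 0)) := ⟨_, rfl⟩
  have hfu : f u = 0 := by rw [lin2 f, hu]; ring
  have hu0 : u ≠ 0 := by
    intro h
    rw [hu] at h
    have h1 : -f (0, 1) = 0 := congrArg Prod.fst h
    have h2 : f (1, 0) = 0 := congrArg Prod.snd h
    have : f v = 0 := by rw [lin2 f, h2, neg_eq_zero.1 h1]; ring
    linarith
  have : ¬ (IsRecession M u ∧ IsRecession M (-u)) := fun h => no_line hM hu0 h.1 h.2
  rw [not_and_or] at this
  have key : ∃ (g : (ℝ × ℝ) →ₗ[ℝ] ℝ) (d : ℝ), (∀ x ∈ M, d ≤ g x) ∧ g u ≠ 0 := by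
    rcases this with h | h
    · obtain ⟨g, d, hg, hgu⟩ := sep hM.isOpen hM.convex h
      exact ⟨g, d, hg, hgu.ne⟩
    · obtain ⟨g, d, hg, hgu⟩ := sep hM.isOpen hM.convex h
      rw [map_neg] at hgu
      exact ⟨g, d, hg, by linarith⟩
  obtain ⟨g, d, hg, hgu⟩ := key
  refine ⟨f, g, c, d, hf, hg, ?_⟩
  rw [lin2 g, hu] at hgu
  simp only at hgu
  intro h
  apply hgu
  linarith

/-- a segment at infinity -/
theorem erdosRatio_segment (hM : IsHilbertDomain M) {v w : ℝ × ℝ} (hvw : v.1 * w.2 - v.2 * w.1 ≠ 0)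
    (hv : IsRecession M v) (hw : IsRecession M w) : erdosRatio M ≤ 1 := by
  have hv0 : v ≠ 0 := by rintro rfl; simp at hvw
  have hw0 : w ≠ 0 := by rintro rfl; simp at hvw
  obtain ⟨f, g, c, d, hf, hg, hD⟩ := exists_pair hM hv0 hv
  have hne := hM.nonempty
  -- slopes
  let S₁ : Set ℝ := {s | ∃ b, ∀ x ∈ M, b ≤ g x - s * (f x + g x)}
  let S₂ : Set ℝ := {s | ∃ b, ∀ x ∈ M, b ≤ s * (f x + g x) - g x}
  have hmpos : ∀ u : ℝ × ℝ, u ≠ 0 → IsRecession M u → 0 < f u + g u := by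
    intro u hu hru
    have h1 := nonneg_of_rec hne hf hru
    have h2 := nonneg_of_rec hne hg hru
    by_contra hle
    exact hu (zero2 hD (by linarith) (by linarith))
  have hmv := hmpos v hv0 hv
  have hmw := hmpos w hw0 hw
  have hS₁ : ∀ s ∈ S₁, ∀ u : ℝ × ℝ, IsRecession M u → s * (f u + g u) ≤ g u := by
    rintro s ⟨b, hb⟩ u hu
    obtain ⟨k, hk⟩ : ∃ k : (ℝ × ℝ) →ₗ[ℝ] ℝ, k = g - s • (f + g) := ⟨_, rfl⟩
    have hke : ∀ x, k x = g x - s * (f x + g x) := by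
      intro x; rw [hk]; simp only [LinearMap.sub_apply, LinearMap.smul_apply, LinearMap.add_apply,
        smul_eq_mul]
    have := nonneg_of_rec hne (k := k) (c := b) (fun x hx => by rw [hke]; exact hb x hx) hu
    rw [hke] at this
    linarith
  have hS₂ : ∀ s ∈ S₂, ∀ u : ℝ × ℝ, IsRecession M u → g u ≤ s * (f u + g u) := by
    rintro s ⟨b, hb⟩ u hu
    obtain ⟨k, hk⟩ : ∃ k : (ℝ × ℝ) →ₗ[ℝ] ℝ, k = s • (f + g) - g := ⟨_, rfl⟩
    have hke : ∀ x, k x = s * (f x + g x) - g x := by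
      intro x; rw [hk]; simp only [LinearMap.sub_apply, LinearMap.smul_apply, LinearMap.add_apply,
        smul_eq_mul]
    have := nonneg_of_rec hne (k := k) (c := b) (fun x hx => by rw [hke]; exact hb x hx) hu
    rw [hke] at this
    linarith
  have h0 : (0:ℝ) ∈ S₁ := ⟨d, fun x hx => by linarith [hg x hx]⟩
  have h1 : (1:ℝ) ∈ S₂ := ⟨c, fun x hx => by linarith [hf x hx]⟩
  -- monotonicity
  have hS₁m : ∀ s ∈ S₁, ∀ s' ≤ s, s' ∈ S₁ := by
    rintro s ⟨b, hb⟩ s' hs'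
    refine ⟨b + (s - s') * (c + d), fun x hx => ?_⟩
    have := hb x hx
    have h3 : 0 ≤ (s - s') * ((f x + g x) - (c + d)) :=
      mul_nonneg (by linarith) (by linarith [hf x hx, hg x hx])
    linarith
  have hS₂m : ∀ s ∈ S₂, ∀ s' ≥ s, s' ∈ S₂ := by
    rintro s ⟨b, hb⟩ s' hs'
    refine ⟨b + (s' - s) * (c + d), fun x hx => ?_⟩
    have := hb x hx
    have h3 : 0 ≤ (s' - s) * ((f x + g x) - (c + d)) :=
      mul_nonneg (by linarith) (by linarith [hf x hx, hg x hx])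
    linarith
  have hba : BddAbove S₁ := ⟨g v / (f v + g v), fun s hs => by
    rw [le_div_iff₀ hmv]; exact hS₁ s hs v hv⟩
  have hbb : BddBelow S₂ := ⟨g v / (f v + g v), fun s hs => by
    rw [div_le_iff₀ hmv]; exact hS₂ s hs v hv⟩
  obtain ⟨α, hα⟩ : ∃ α, α = sSup S₁ := ⟨_, rfl⟩
  obtain ⟨β, hβ⟩ : ∃ β, β = sInf S₂ := ⟨_, rfl⟩
  have hα1 : ∀ s ∈ S₁, s ≤ α := fun s hs => by rw [hα]; exact le_csSup hba hs
  have hβ1 : ∀ s ∈ S₂, β ≤ s := fun s hs => by rw [hβ]; exact csInf_le hbb hs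
  have hα2 : ∀ s < α, s ∈ S₁ := by
    intro s hs
    rw [hα] at hs
    obtain ⟨s', hs', hlt⟩ := exists_lt_of_lt_csSup ⟨0, h0⟩ hs
    exact hS₁m s' hs' s hlt.le
  have hβ2 : ∀ s > β, s ∈ S₂ := by
    intro s hs
    rw [hβ] at hs
    obtain ⟨s', hs', hlt⟩ := exists_lt_of_csInf_lt ⟨1, h1⟩ hs
    exact hS₂m s' hs' s hlt.le
  have hαu : ∀ u : ℝ × ℝ, u ≠ 0 → IsRecession M u → α ≤ g u / (f u + g u) := by
    intro u hu hru
    rw [hα]
    apply csSup_le ⟨0, h0⟩
    intro s hs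
    rw [le_div_iff₀ (hmpos u hu hru)]; exact hS₁ s hs u hru
  have hβu : ∀ u : ℝ × ℝ, u ≠ 0 → IsRecession M u → g u / (f u + g u) ≤ β := by
    intro u hu hru
    rw [hβ]
    apply le_csInf ⟨1, h1⟩
    intro s hs
    rw [div_le_iff₀ (hmpos u hu hru)]; exact hS₂ s hs u hru
  have hslope : g v / (f v + g v) ≠ g w / (f w + g w) := by
    intro h
    rw [div_eq_div_iff hmv.ne' hmw.ne'] at h
    have e1 : (f (1, 0) * g (0, 1) - f (0, 1) * g (1, 0)) * (v.1 * w.2 - v.2 * w.1) = 0 := by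
      have : f v * g w - f w * g v = 0 := by linarith
      rw [lin2 f v, lin2 g v, lin2 f w, lin2 g w] at this
      linear_combination this
    rcases mul_eq_zero.1 e1 with h' | h'
    · exact hD h'
    · exact hvw h'
  have hαβ : α < β := by
    rcases lt_or_gt_of_ne hslope with h | h
    · linarith [hαu v hv0 hv, hβu w hw0 hw]
    · linarith [hαu w hw0 hw, hβu v hv0 hv]
  have hba0 : 0 < β - α := sub_pos.2 hαβ
  -- the two extreme functionals
  obtain ⟨F, hFd⟩ : ∃ F : (ℝ × ℝ) →ₗ[ℝ] ℝ, F = g - α • (f + g) := ⟨_, rfl⟩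
  obtain ⟨G, hGd⟩ : ∃ G : (ℝ × ℝ) →ₗ[ℝ] ℝ, G = β • (f + g) - g := ⟨_, rfl⟩
  have hFv : ∀ x, F x = g x - α * (f x + g x) := by
    intro x; rw [hFd]; simp only [LinearMap.sub_apply, LinearMap.smul_apply, LinearMap.add_apply,
      smul_eq_mul]
  have hGv : ∀ x, G x = β * (f x + g x) - g x := by
    intro x; rw [hGd]; simp only [LinearMap.sub_apply, LinearMap.smul_apply, LinearMap.add_apply,
      smul_eq_mul]
  -- interior recession directions
  have hint : ∀ u : ℝ × ℝ, 0 < F u → 0 < G u → IsRecession M u := by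
    intro u hFu hGu
    by_contra hnr
    obtain ⟨k, b, hk, hku⟩ := sep hM.isOpen hM.convex hnr
    obtain ⟨p, q, hpq⟩ := expand2 hD k
    rw [hFv] at hFu
    rw [hGv] at hGu
    have hmu : 0 < f u + g u := by
      have : 0 < (β - α) * (f u + g u) := by linarith
      exact (mul_pos_iff_of_pos_left hba0).1 this
    -- k = p (f + g) + (q - p) g
    rcases lt_trichotomy (q - p) 0 with hneg | hzero | hpos
    · have hs : (p / (p - q)) ∈ S₂ := by
        refine ⟨b / (p - q), fun x hx => ?_⟩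
        have h3 := hk x hx
        rw [hpq] at h3
        have hpos : 0 < p - q := by linarith
        rw [div_le_iff₀ hpos]
        have : (p / (p - q) * (f x + g x) - g x) * (p - q) = p * f x + q * g x := by
          field_simp; ring
        rw [this]; exact h3
      have h4 := hβ1 _ hs
      rw [hpq] at hku
      have hpos : 0 < p - q := by linarith
      rw [le_div_iff₀ hpos] at h4
      have h5 : β * (p - q) * (f u + g u) ≤ p * (f u + g u) := by gcongr
      have h6 : 0 < (p - q) * (β * (f u + g u) - g u) := mul_pos hpos hGu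
      linarith
    · have hqp : q = p := by linarith
      rw [hpq, hqp] at hku
      have hp : p < 0 := by
        by_contra hp
        push Not at hp
        have : 0 ≤ p * (f u + g u) := mul_nonneg hp hmu.le
        linarith
      have h3 := nonneg_of_rec hne hk hv
      rw [hpq, hqp] at h3
      have : p * (f v + g v) < 0 := mul_neg_of_neg_of_pos hp hmv
      linarith
    · have hs : (-p / (q - p)) ∈ S₁ := by
        refine ⟨b / (q - p), fun x hx => ?_⟩
        have h3 := hk x hx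
        rw [hpq] at h3
        rw [div_le_iff₀ hpos]
        have : (g x - -p / (q - p) * (f x + g x)) * (q - p) = p * f x + q * g x := by
          field_simp; ring
        rw [this]; exact h3
      have h4 := hα1 _ hs
      rw [hpq] at hku
      rw [div_le_iff₀ hpos] at h4
      have h5 : -p * (f u + g u) ≤ α * (q - p) * (f u + g u) := by gcongr
      have h6 : 0 < (q - p) * (g u - α * (f u + g u)) := mul_pos hpos hFu
      linarith
  obtain ⟨x₀, hx₀⟩ := hne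
  have htarget : ∀ X Y : ℝ, F x₀ < X → G x₀ < Y → ∃ y ∈ M, F y = X ∧ G y = Y := by
    intro X Y hX hY
    -- solve for f, g
    obtain ⟨y, hy1, hy2⟩ := solve2 hD ((X + Y) / (β - α) - (X + α * ((X + Y) / (β - α))))
      (X + α * ((X + Y) / (β - α)))
    have e1 : F y = X := by rw [hFv, hy1, hy2]; ring
    have e2 : G y = Y := by
      rw [hGv, hy1, hy2]; field_simp; ring
    refine ⟨y, ?_, e1, e2⟩
    have h3 := hint (y - x₀) (by rw [map_sub, e1]; linarith) (by rw [map_sub, e2]; linarith)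
      x₀ hx₀ 1 zero_le_one
    rw [one_smul] at h3
    simpa using h3
  -- lower bounds of functionals
  have hFε : ∀ ε > 0, ∃ b, ∀ x ∈ M, b ≤ F x + ε * (F x + G x) := by
    intro ε hε
    obtain ⟨b, hb⟩ := hα2 (α - ε * (β - α)) (by linarith [mul_pos hε hba0])
    refine ⟨b, fun x hx => (hb x hx).trans (le_of_eq ?_)⟩
    rw [hFv, hGv]; ring
  have hGε : ∀ ε > 0, ∃ b, ∀ x ∈ M, b ≤ G x + ε * (F x + G x) := by
    intro ε hε
    obtain ⟨b, hb⟩ := hβ2 (β + ε * (β - α)) (by linarith [mul_pos hε hba0])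
    refine ⟨b, fun x hx => (hb x hx).trans (le_of_eq ?_)⟩
    rw [hFv, hGv]; ring
  have hFG : ∃ b, ∀ x ∈ M, b ≤ F x + G x := by
    refine ⟨(β - α) * (c + d), fun x hx => ?_⟩
    have h3 : 0 ≤ (β - α) * ((f x + g x) - (c + d)) :=
      mul_nonneg hba0.le (by linarith [hf x hx, hg x hx])
    rw [hFv, hGv]; linarith
  have hbound : ∀ Λ : ℝ, 1 < Λ → erdosRatio M ≤ (Λ + 1) / (Λ - 1) := by
    intro Λ hΛ
    have hΛ0 : 0 < Λ := by linarith
    obtain ⟨δ, hδ⟩ : ∃ δ : ℝ, δ = 1 / (2 * Λ) := ⟨_, rfl⟩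
    have hδ0 : 0 < δ := by rw [hδ]; positivity
    have hδΛ : Λ * (2 * δ) = 1 := by rw [hδ]; field_simp
    have hδ1 : δ < 1 := by nlinarith
    obtain ⟨ε, hε⟩ : ∃ ε : ℝ, ε = δ / (2 * (3 * Λ + δ)) := ⟨_, rfl⟩
    have hε0 : 0 < ε := by rw [hε]; positivity
    have hεe : ε * (3 * Λ + δ) = δ / 2 := by rw [hε]; field_simp
    obtain ⟨b₁, hb₁⟩ := hFε ε hε0
    obtain ⟨b₂, hb₂⟩ := hGε ε hε0
    obtain ⟨b₃, hb₃⟩ := hFG
    obtain ⟨c₀, hc₀⟩ : ∃ c₀ : ℝ, c₀ = |b₁| + |b₂| + |b₃| + 1 := ⟨_, rfl⟩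
    have a1 := neg_abs_le b₁
    have a2 := neg_abs_le b₂
    have a3 := neg_abs_le b₃
    have n1 := abs_nonneg b₁
    have n2 := abs_nonneg b₂
    have n3 := abs_nonneg b₃
    have hc0 : 0 < c₀ := by rw [hc₀]; linarith
    obtain ⟨t, ht⟩ : ∃ t : ℝ, t = (|F x₀| + |G x₀| + 2 * c₀ + 1) / δ := ⟨_, rfl⟩
    have aF := le_abs_self (F x₀)
    have aG := le_abs_self (G x₀)
    have mF := abs_nonneg (F x₀)
    have mG := abs_nonneg (G x₀)
    have ht0 : 0 < t := by rw [ht]; positivity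
    have htδ : t * δ = |F x₀| + |G x₀| + 2 * c₀ + 1 := by rw [ht]; field_simp
    have htc : 2 * c₀ ≤ t * δ := by rw [htδ]; linarith
    have htc' : 2 * c₀ ≤ t := by nlinarith
    have hFd' : F x₀ < t * δ := by rw [htδ]; linarith
    have hGd' : G x₀ < t * δ := by rw [htδ]; linarith
    have hδN : t * δ ≤ t * (3 * Λ) := by
      apply mul_le_mul_of_nonneg_left _ ht0.le; linarith
    obtain ⟨A, hA, hFA, hGA⟩ := htarget (t * δ) (t * δ) hFd' hGd'
    obtain ⟨B, hB, hFB, hGB⟩ := htarget (t * (3 * Λ)) (t * δ) (by linarith) hGd'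
    obtain ⟨C, hC, hFC, hGC⟩ := htarget (t * δ) (t * (3 * Λ)) hFd' (by linarith)
    -- the functionals
    have hs : ∀ (k : (ℝ × ℝ) →ₗ[ℝ] ℝ) (y : ℝ × ℝ) (b : ℝ), k y = t * b →
        (t⁻¹ • lift k 0) (y, 1) = b * (LinearMap.snd ℝ (ℝ × ℝ) ℝ) (y, 1) := by
      intro k y b hk
      rw [LinearMap.smul_apply, smul_eq_mul, lift_apply, hk, LinearMap.snd_apply]
      field_simp; ring
    have hs' : ∀ (k : (ℝ × ℝ) →ₗ[ℝ] ℝ) (y : ℝ × ℝ) (b : ℝ),
        (t⁻¹ • lift k 0) (y, 1) = b * (LinearMap.snd ℝ (ℝ × ℝ) ℝ) (y, 1) → k y = t * b := by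
      intro k y b hk
      rw [LinearMap.smul_apply, smul_eq_mul, lift_apply, LinearMap.snd_apply] at hk
      field_simp at hk
      linarith
    have hs1 : ∀ (k : (ℝ × ℝ) →ₗ[ℝ] ℝ) (y : ℝ × ℝ),
        (t⁻¹ • lift k 0) (y, 1) = (LinearMap.snd ℝ (ℝ × ℝ) ℝ) (y, 1) → k y = t := by
      intro k y hk
      have := hs' k y 1 (by rw [one_mul]; exact hk)
      rwa [mul_one] at this
    obtain ⟨k₁, hk₁⟩ : ∃ k : (ℝ × ℝ) →ₗ[ℝ] ℝ, k = F + ε • (F + G) := ⟨_, rfl⟩
    obtain ⟨k₂, hk₂⟩ : ∃ k : (ℝ × ℝ) →ₗ[ℝ] ℝ, k = G + ε • (F + G) := ⟨_, rfl⟩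
    obtain ⟨k₃, hk₃⟩ : ∃ k : (ℝ × ℝ) →ₗ[ℝ] ℝ, k = F + G := ⟨_, rfl⟩
    have e₁ : ∀ x, k₁ x = F x + ε * (F x + G x) := by
      intro x; rw [hk₁]; simp only [LinearMap.smul_apply, LinearMap.add_apply, smul_eq_mul]
    have e₂ : ∀ x, k₂ x = G x + ε * (F x + G x) := by
      intro x; rw [hk₂]; simp only [LinearMap.smul_apply, LinearMap.add_apply, smul_eq_mul]
    have e₃ : ∀ x, k₃ x = F x + G x := by
      intro x; rw [hk₃]; simp only [LinearMap.add_apply]
    have P₁ : Pos M (lift k₁ (-c₀)) := by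
      intro x hx; rw [lift_apply, e₁]; linarith [hb₁ x hx]
    have P₂ : Pos M (lift k₂ (-c₀)) := by
      intro x hx; rw [lift_apply, e₂]; linarith [hb₂ x hx]
    have P₃ : Pos M (lift k₃ (-c₀)) := by
      intro x hx; rw [lift_apply, e₃]; linarith [hb₃ x hx]
    refine ratio_le_core hM (F := t⁻¹ • lift F 0) (G := t⁻¹ • lift G 0)
      (h := LinearMap.snd ℝ (ℝ × ℝ) ℝ) snd_pos hΛ hδ1 (N := 3 * Λ) (by linarith) (by linarith)
      hA hB hC (hs F A δ hFA) (hs G A δ hGA) (hs F B _ hFB) (hs G B δ hGB) (hs F C δ hFC)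
      (hs G C _ hGC) ?_ ?_ ?_
    · intro O hO hFO hGO X hX e
      have fO := hs1 F O hFO
      have gO := hs1 G O hGO
      have eX : F X + G X = t * (3 * Λ + δ) := by
        apply hs' (F + G) X (3 * Λ + δ) _ |> fun h => by simpa using h
        rw [← e]
        simp only [LinearMap.smul_apply, smul_eq_mul, lift_apply, LinearMap.add_apply]
        ring
      apply tanh_ge hM.isOpen hM.convex hO hX P₃ snd_pos hΛ.le
      rw [lift_apply, lift_apply, e₃, e₃, fO, gO, eX, LinearMap.snd_apply, LinearMap.snd_apply]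
      nlinarith
    · intro O hO hFO hGO X hX e
      have fO := hs1 F O hFO
      have gO := hs1 G O hGO
      have eX := hs' F X δ e
      by_cases hle : G X ≤ t * (3 * Λ)
      · apply tanh_ge hM.isOpen hM.convex hO hX snd_pos P₁ hΛ.le
        rw [lift_apply, lift_apply, e₁, e₁, fO, gO, eX, LinearMap.snd_apply, LinearMap.snd_apply]
        have h3 : ε * (t * δ + G X) ≤ t * (δ / 2) := by
          calc ε * (t * δ + G X) ≤ ε * (t * δ + t * (3 * Λ)) := by gcongr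
            _ = t * (ε * (3 * Λ + δ)) := by ring
            _ = _ := by rw [hεe]
        have h4 : t * δ + ε * (t * δ + G X) - -c₀ * 1 ≤ 2 * δ * t := by linarith
        calc Λ * (1 * (t * δ + ε * (t * δ + G X) - -c₀ * 1)) ≤ Λ * (1 * (2 * δ * t)) := by gcongr
          _ = (Λ * (2 * δ)) * t := by ring
          _ = t := by rw [hδΛ, one_mul]
          _ ≤ 1 * (t + ε * (t + t) - -c₀ * 1) := by
            have : 0 < ε * (t + t) := by positivity
            linarith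
      · push Not at hle
        apply tanh_ge hM.isOpen hM.convex hO hX P₃ snd_pos hΛ.le
        rw [lift_apply, lift_apply, e₃, e₃, fO, gO, eX, LinearMap.snd_apply, LinearMap.snd_apply]
        have : 0 < t * δ := by positivity
        nlinarith
    · intro O hO hFO hGO X hX e
      have fO := hs1 F O hFO
      have gO := hs1 G O hGO
      have eX := hs' G X δ e
      by_cases hle : F X ≤ t * (3 * Λ)
      · apply tanh_ge hM.isOpen hM.convex hO hX snd_pos P₂ hΛ.le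
        rw [lift_apply, lift_apply, e₂, e₂, fO, gO, eX, LinearMap.snd_apply, LinearMap.snd_apply]
        have h3 : ε * (F X + t * δ) ≤ t * (δ / 2) := by
          calc ε * (F X + t * δ) ≤ ε * (t * (3 * Λ) + t * δ) := by gcongr
            _ = t * (ε * (3 * Λ + δ)) := by ring
            _ = _ := by rw [hεe]
        have h4 : t * δ + ε * (F X + t * δ) - -c₀ * 1 ≤ 2 * δ * t := by linarith
        calc Λ * (1 * (t * δ + ε * (F X + t * δ) - -c₀ * 1)) ≤ Λ * (1 * (2 * δ * t)) := by gcongr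
          _ = (Λ * (2 * δ)) * t := by ring
          _ = t := by rw [hδΛ, one_mul]
          _ ≤ 1 * (t + ε * (t + t) - -c₀ * 1) := by
            have : 0 < ε * (t + t) := by positivity
            linarith
      · push Not at hle
        apply tanh_ge hM.isOpen hM.convex hO hX P₃ snd_pos hΛ.le
        rw [lift_apply, lift_apply, e₃, e₃, fO, gO, eX, LinearMap.snd_apply, LinearMap.snd_apply]
        have : 0 < t * δ := by positivity
        nlinarith
  apply le_of_forall_pos_le_add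
  intro ε hε
  have := hbound (1 + 2 / ε) (by linarith [div_pos two_pos hε])
  have e : (1 + 2 / ε + 1) / (1 + 2 / ε - 1) = 1 + ε := by field_simp; ring
  rwa [e] at this

end Pool.Agent.KS6_17.ER
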